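import Pool.Agent.Run7.h408.EF.Stm2

/-!
# Project EF (helper408): piece `StAr`: the area measure of a continuous metric (helper547)
-/

set_option autoImplicit false

open Set Filter Topology MeasureTheory
open scoped Real ContDiff
open Pool.Agent.Y262.QE Pool.Agent.Y264.QR Pool.Agent.Run7.h408.EF

noncomputable section

namespace Pool.Agent.Run7.h547.EF

lemma det_eq (B : ℂ →L[ℝ] ℂ) :
    B.det = (B 1).re * (B Complex.I).im - (B 1).im * (B Complex.I).re := by
  rw [ContinuousLinearMap.det, ← LinearMap.det_toMatrix Complex.basisOneI, Matrix.det_fin_two]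
  simp [LinearMap.toMatrix_apply]
  ring

lemma nsq (z : ℂ) : ‖z‖ ^ 2 = z.re ^ 2 + z.im ^ 2 := by
  rw [Complex.sq_norm, Complex.normSq_apply]
  ring

/-- two linear maps with the same norms have the same determinants up to the sign -/
lemma det_norm (B C : ℂ →L[ℝ] ℂ) (h : ∀ v, ‖B v‖ = ‖C v‖) : |B.det| = |C.det| := by
  rw [← sq_eq_sq_iff_abs_eq_abs, det_eq, det_eq]
  have h1 : ‖B 1‖ ^ 2 = ‖C 1‖ ^ 2 := by rw [h]
  have h2 : ‖B Complex.I‖ ^ 2 = ‖C Complex.I‖ ^ 2 := by rw [h]
  have h3 : ‖B (1 + Complex.I)‖ ^ 2 = ‖C (1 + Complex.I)‖ ^ 2 := by rw [h]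
  rw [map_add, map_add] at h3
  rw [nsq, nsq] at h1 h2 h3
  simp only [Complex.add_re, Complex.add_im] at h3
  set a := (B 1).re
  set b := (B 1).im
  set c := (B Complex.I).re
  set d := (B Complex.I).im
  set a' := (C 1).re
  set b' := (C 1).im
  set c' := (C Complex.I).re
  set d' := (C Complex.I).im
  have h4 : a * c + b * d = a' * c' + b' * d' := by linarith
  have e1 : (a * d - b * c) ^ 2 = (a ^ 2 + b ^ 2) * (c ^ 2 + d ^ 2) - (a * c + b * d) ^ 2 := by ring
  have e2 : (a' * d' - b' * c') ^ 2 =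
      (a' ^ 2 + b' ^ 2) * (c' ^ 2 + d' ^ 2) - (a' * c' + b' * d') ^ 2 := by ring
  rw [e1, e2, h1, h2, h4]

lemma det_comp' (B L : ℂ →L[ℝ] ℂ) : (B.comp L).det = B.det * L.det := by
  rw [det_eq, det_eq, det_eq]
  have e : ∀ z : ℂ, B z = (z.re : ℂ) * B 1 + (z.im : ℂ) * B Complex.I := by
    intro z
    have h1 : z = z.re • (1 : ℂ) + z.im • Complex.I := by
      apply Complex.ext <;> simp
    conv_lhs => rw [h1]
    rw [map_add, map_smul, map_smul, Complex.real_smul, Complex.real_smul]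
  simp only [ContinuousLinearMap.coe_comp, Function.comp_apply]
  rw [e (L 1), e (L Complex.I)]
  simp only [Complex.add_re, Complex.add_im, Complex.mul_re, Complex.mul_im, Complex.ofReal_re,
    Complex.ofReal_im, zero_mul, sub_zero, add_zero]
  ring

theorem stAr (hInt : StInt) (_hFin : StFin) : StAr := by
  intro M _ _ _ _ μ₀ D A₀ hS A₁ hdet hcont htr
  -- the ratio in a chart
  let r : Fin D.N → M → ℝ := fun i x => |(A₁ i (D.φ i x)).det| / |(A₀ i (D.φ i x)).det|
  have hd0 : ∀ i, ∀ x ∈ D.U i, (A₀ i (D.φ i x)).det ≠ 0 := fun i x hx =>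
    hS.det i (D.φ i x) ⟨x, hx, rfl⟩
  have hd1 : ∀ i, ∀ x ∈ D.U i, (A₁ i (D.φ i x)).det ≠ 0 := fun i x hx =>
    hdet i (D.φ i x) ⟨x, hx, rfl⟩
  have hr : ∀ i j x, x ∈ D.U i → x ∈ D.U j → r i x = r j x := by
    intro i j x hi hj
    set L := fderiv ℝ (fun z => D.φ j (D.ψ i z)) (D.φ i x) with hL
    have k0 : |(A₀ j (D.φ j x)).det| * |L.det| = |(A₀ i (D.φ i x)).det| := by
      rw [← abs_mul, ← det_comp']
      exact det_norm _ _ (fun v => (hS.tr i j x hi hj).2 v)
    have k1 : |(A₁ j (D.φ j x)).det| * |L.det| = |(A₁ i (D.φ i x)).det| := by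
      rw [← abs_mul, ← det_comp']
      exact det_norm _ _ (fun v => htr i j x hi hj v)
    have h0 := hd0 i x hi
    have hLn : |L.det| ≠ 0 := by
      intro h
      rw [h, mul_zero] at k0
      exact h0 (abs_eq_zero.1 k0.symm)
    show |(A₁ i (D.φ i x)).det| / |(A₀ i (D.φ i x)).det| =
      |(A₁ j (D.φ j x)).det| / |(A₀ j (D.φ j x)).det|
    rw [← k0, ← k1, mul_div_mul_right _ _ hLn]
  have hcov : ∀ x, ∃ i, x ∈ D.U i := hS.cover
  choose ix hix using hcov
  let w : M → ℝ := fun x => r (ix x) x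
  have hw : ∀ i, ∀ x ∈ D.U i, w x = r i x := fun i x hx => hr _ _ x (hix x) hx
  have hrc : ∀ i, ContinuousOn (r i) (D.U i) := by
    intro i
    have hm : MapsTo (D.φ i) (D.U i) (D.T i) := fun x hx => ⟨x, hx, rfl⟩
    have c0 : ContinuousOn (fun x => A₀ i (D.φ i x)) (D.U i) :=
      ContinuousOn.comp (hS.contA i) (hS.contφ i) hm
    have c1 : ContinuousOn (fun x => A₁ i (D.φ i x)) (D.U i) :=
      (hcont i).comp (hS.contφ i) hm
    have cdet : Continuous fun B : ℂ →L[ℝ] ℂ => B.det := by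
      simp only [det_eq]
      have e1 : Continuous fun B : ℂ →L[ℝ] ℂ => B 1 := by fun_prop
      have e2 : Continuous fun B : ℂ →L[ℝ] ℂ => B Complex.I := by fun_prop
      exact ((Complex.continuous_re.comp e1).mul (Complex.continuous_im.comp e2)).sub
        ((Complex.continuous_im.comp e1).mul (Complex.continuous_re.comp e2))
    refine ContinuousOn.div ((cdet.comp_continuousOn c1).abs) ((cdet.comp_continuousOn c0).abs) ?_
    intro x hx
    exact abs_ne_zero.2 (hd0 i x hx)
  have hwc : Continuous w := by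
    rw [continuous_iff_continuousAt]
    intro x
    have h1 : ContinuousOn w (D.U (ix x)) := (hrc (ix x)).congr (hw (ix x))
    exact h1.continuousAt ((hS.openU (ix x)).mem_nhds (hix x))
  have hwp : ∀ x, 0 ≤ w x := fun x => div_nonneg (abs_nonneg _) (abs_nonneg _)
  have hmeasw : Measurable fun x => ENNReal.ofReal (w x) := hwc.measurable.ennreal_ofReal
  refine ⟨μ₀.withDensity fun x => ENNReal.ofReal (w x), ?_⟩
  refine ⟨hS.openU, hS.cover, hS.left, hS.contφ, hS.openT, hS.contψ, hdet, hcont, ?_, ?_⟩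
  · intro (i : Fin D.N) (j : Fin D.N) x (hi : x ∈ D.U i) (hj : x ∈ D.U j)
    exact ⟨(hS.tr i j x hi hj).1, htr i j x hi hj⟩
  · intro (i : Fin D.N) B (hB : B ⊆ D.U i) hBm
    show (μ₀.withDensity fun x => ENNReal.ofReal (w x)) B =
      ∫⁻ z in D.φ i '' B, ENNReal.ofReal |(A₁ i z).det|
    have hleft : ∀ x ∈ D.U i, D.ψ i (D.φ i x) = x := hS.left i
    have hBT : D.φ i '' B ⊆ D.T i := image_mono hB
    have h1 : ∫⁻ x in D.U i, B.indicator (fun x => ENNReal.ofReal (w x)) x ∂μ₀ =
        ∫⁻ z in D.T i, B.indicator (fun x => ENNReal.ofReal (w x)) (D.ψ i z) *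
          ENNReal.ofReal |(A₀ i z).det| :=
      (hInt M μ₀ (wth D A₀) hS i).1 (B.indicator fun x => ENNReal.ofReal (w x))
        (hmeasw.indicator hBm)
    have h2 : ∫⁻ x in D.U i, B.indicator (fun x => ENNReal.ofReal (w x)) x ∂μ₀ =
        (μ₀.withDensity fun x => ENNReal.ofReal (w x)) B := by
      rw [lintegral_indicator hBm, Measure.restrict_restrict hBm, inter_eq_left.mpr hB,
        withDensity_apply _ hBm]
    rw [← h2, h1]
    have himg : ∀ z ∈ D.T i, (D.ψ i z ∈ B ↔ z ∈ D.φ i '' B) := by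
      rintro z ⟨x, hx, rfl⟩
      rw [hleft x hx]
      constructor
      · intro h; exact ⟨x, h, rfl⟩
      · rintro ⟨y, hy, hxy⟩
        have : D.ψ i (D.φ i y) = D.ψ i (D.φ i x) := by rw [hxy]
        rw [hleft y (hB hy), hleft x hx] at this
        exact this ▸ hy
    have hTm : MeasurableSet (D.T i) := IsOpen.measurableSet (hS.openT i)
    have himgm : MeasurableSet (D.φ i '' B) := by
      have e : D.φ i '' B = D.T i ∩ D.ψ i ⁻¹' B := by
        ext z
        constructor
        · intro hz; exact ⟨hBT hz, (himg z (hBT hz)).mpr hz⟩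
        · rintro ⟨hz, hz'⟩; exact (himg z hz).mp hz'
      rw [e]
      have hmm : Measurable (fun z : D.T i => D.ψ i z) :=
        (continuousOn_iff_continuous_domRestrict.mp (hS.contψ i)).measurable
      have h3 : MeasurableSet ((fun z : D.T i => D.ψ i z) ⁻¹' B) := hmm hBm
      have h4 := hTm.subtype_image h3
      convert h4 using 1
      ext z
      simp [and_comm]
    have e1 : ∫⁻ z in D.T i, B.indicator (fun x => ENNReal.ofReal (w x)) (D.ψ i z) *
        ENNReal.ofReal |(A₀ i z).det| =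
        ∫⁻ z in D.T i, (D.φ i '' B).indicator (fun z => ENNReal.ofReal
          |(A₁ i z).det|) z := by
      apply setLIntegral_congr_fun hTm
      intro z hz
      by_cases hzB : z ∈ D.φ i '' B
      · have hz3 : D.ψ i z ∈ B := (himg z hz).mpr hzB
        simp only [indicator_of_mem hz3, indicator_of_mem hzB]
        obtain ⟨x, hx, rfl⟩ := hzB
        rw [hleft x (hB hx), ← ENNReal.ofReal_mul (hwp x), hw i x (hB hx)]
        congr 1
        show |(A₁ i (D.φ i x)).det| / |(A₀ i (D.φ i x)).det| * |(A₀ i (D.φ i x)).det| = _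
        exact div_mul_cancel₀ _ (abs_ne_zero.2 (hd0 i x (hB hx)))
      · have hz3 : D.ψ i z ∉ B := fun h => hzB ((himg z hz).mp h)
        simp only [indicator_of_notMem hz3, indicator_of_notMem hzB, zero_mul]
    rw [e1, lintegral_indicator himgm, Measure.restrict_restrict himgm, inter_eq_left.mpr hBT]

end Pool.Agent.Run7.h547.EF
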